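import Pool.Agent.Helper87.MB.Stm

/-!
# The gadget: Dominator needs seven moves, and loses if the port is not dominated
-/

set_option autoImplicit false

namespace Pool.Agent.Helper8.MB

open Pool.Agent.Helper87.MB

/-- closed neighbourhoods as bit masks -/
def nm (v : ℕ) : ℕ :=
  [9345, 14338, 3268, 4680, 4368, 8480, 76, 133, 304, 520, 1029, 2054, 4122, 8227].getD v 0

/-- remove the bits of `c` from `m` -/
def clr (m c : ℕ) : ℕ := m ^^^ (m &&& c)

/-- the set of a bit mask -/
def toF (m : ℕ) : Finset (Fin 14) := Finset.univ.filter fun v => m.testBit v.1 = true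

theorem mem_toF (m : ℕ) (v : Fin 14) : v ∈ toF m ↔ m.testBit v.1 = true := by
  simp [toF]

theorem testBit_clr (m c i : ℕ) : (clr m c).testBit i = (m.testBit i && !c.testBit i) := by
  unfold clr
  rw [Nat.testBit_xor, Nat.testBit_and]
  cases m.testBit i <;> cases c.testBit i <;> rfl

theorem nm_spec : ∀ v w : Fin 14, (nm v.1).testBit w.1 = decide (w ∈ NH v) := by
  decide +kernel

theorem symm_NH : ∀ v w : Fin 14, w ∈ NH v → v ∈ NH w := by
  decide +kernel

theorem toF_erase (F : ℕ) (x : Fin 14) : toF (clr F (2 ^ x.1)) = (toF F).erase x := by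
  ext v
  rw [Finset.mem_erase, mem_toF, mem_toF, testBit_clr, Nat.testBit_two_pow]
  by_cases h : x = v
  · subst h
    simp
  · have h' : x.1 ≠ v.1 := fun e => h (Fin.ext e)
    simp [h', Ne.symm h]

theorem toF_sdiff (U : ℕ) (y : Fin 14) : toF (clr U (nm y.1)) = toF U \ NH y := by
  ext v
  rw [Finset.mem_sdiff, mem_toF, mem_toF, testBit_clr, nm_spec]
  simp

/-- the vertices -/
def vs : List ℕ := [0, 1, 2, 3, 4, 5, 6, 7, 8, 9, 10, 11, 12, 13]

theorem mem_vs (v : Fin 14) : v.1 ∈ vs := by
  revert v
  decide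

theorem lt_of_mem_vs : ∀ v ∈ vs, v < 14 := by decide

/-- some undominated vertex has at most one free vertex in its closed neighbourhood -/
def thr (F U : ℕ) : Bool :=
  vs.any fun w => U.testBit w && (clr (nm w &&& F) (2 ^ Nat.log2 (nm w &&& F)) == 0)

/-- all replies -/
def goAll (f : ℕ → List ℕ → Option (List ℕ)) : List ℕ → List ℕ → Option (List ℕ)
  | [], t => some t
  | y :: ys, t => match f y t with
    | none => none
    | some t' => goAll f ys t'

/-- the checker: the list contains the moves of Staller -/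
def chk : ℕ → ℕ → ℕ → List ℕ → Option (List ℕ)
  | 0, _, U, t => if vs.any fun w => U.testBit w then some t else none
  | k + 1, F, U, t =>
    if thr F U then some t else
    if vs.any (fun w => U.testBit w) then
      match t with
      | [] => none
      | x :: t' =>
        if x < 14 ∧ F.testBit x = true then
          goAll (fun y s => if (clr F (2 ^ x)).testBit y then
            chk k (clr (clr F (2 ^ x)) (2 ^ y)) (clr U (nm y)) s else some s) vs t'
        else none
    else none

theorem goAll_spec (f : ℕ → List ℕ → Option (List ℕ)) (ys t t' : List ℕ)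
    (h : goAll f ys t = some t') : ∀ y ∈ ys, ∃ a b, f y a = some b := by
  induction ys generalizing t with
  | nil => intro y hy; simp at hy
  | cons z ys ih =>
    intro y hy
    simp only [goAll] at h
    cases hz : f z t with
    | none => rw [hz] at h; simp at h
    | some s =>
      rw [hz] at h
      rcases List.mem_cons.1 hy with rfl | hy
      · exact ⟨t, s, hz⟩
      · exact ih s h y hy

theorem any_ne (U : ℕ) (h : (vs.any fun w => U.testBit w) = true) : toF U ≠ ∅ := by
  rw [List.any_eq_true] at h
  obtain ⟨w, hw, hU⟩ := h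
  have hl := lt_of_mem_vs w hw
  intro he
  have : (⟨w, hl⟩ : Fin 14) ∈ toF U := (mem_toF _ _).2 hU
  rw [he] at this
  simp at this

/-- an undominated vertex without free neighbours is never dominated -/
theorem dead (k : ℕ) : ∀ (F U : Finset (Fin 14)) (w : Fin 14), w ∈ U → (∀ y ∈ F, w ∉ NH y) →
    ¬ DW NH k F U := by
  induction k with
  | zero =>
    intro F U w hw _ h
    rw [DW_zero] at h
    rw [h] at hw
    simp at hw
  | succ k ih =>
    intro F U w hw hF h
    rw [DW_succ] at h
    rcases h with h | ⟨y, hy, h⟩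
    · rw [h] at hw
      simp at hw
    · have hw' : w ∈ U \ NH y := Finset.mem_sdiff.2 ⟨hw, hF y hy⟩
      rw [SW_iff] at h
      rcases h with h | ⟨⟨x, hx⟩, h⟩
      · rw [h] at hw'
        simp at hw'
      · exact ih _ _ w hw' (fun z hz => hF z (Finset.mem_of_mem_erase (Finset.mem_of_mem_erase hz)))
          (h x hx)

theorem thr_spec (k F U : ℕ) (h : thr F U = true) : ¬ SW NH k (toF F) (toF U) := by
  unfold thr at h
  rw [List.any_eq_true] at h
  obtain ⟨w, hw, h⟩ := h
  have hl := lt_of_mem_vs w hw
  rw [Bool.and_eq_true, beq_iff_eq] at h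
  obtain ⟨hU, h⟩ := h
  set r := nm w &&& F with hr
  have hwU : (⟨w, hl⟩ : Fin 14) ∈ toF U := (mem_toF _ _).2 hU
  have hone : ∀ y : Fin 14, y ∈ toF F → (⟨w, hl⟩ : Fin 14) ∈ NH y → y.1 = Nat.log2 r := by
    intro y hy hwy
    have h1 : y ∈ NH ⟨w, hl⟩ := symm_NH _ _ hwy
    have h2 : (nm w).testBit y.1 = true := by
      have := nm_spec ⟨w, hl⟩ y
      rw [decide_eq_true h1] at this
      exact this
    have h3 : r.testBit y.1 = true := by
      rw [hr, Nat.testBit_and, h2, (mem_toF _ _).1 hy]
      rfl
    by_contra hne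
    have h4 : (clr r (2 ^ Nat.log2 r)).testBit y.1 = true := by
      rw [testBit_clr, Nat.testBit_two_pow, h3]
      simp [Ne.symm hne]
    rw [h] at h4
    simp at h4
  rw [SW_iff]
  rintro (h0 | ⟨⟨z, hz⟩, h0⟩)
  · rw [h0] at hwU
    simp at hwU
  · by_cases hex : ∃ y ∈ toF F, (⟨w, hl⟩ : Fin 14) ∈ NH y
    · obtain ⟨y, hy, hwy⟩ := hex
      refine dead k _ _ _ hwU ?_ (h0 y hy)
      intro v hv hwv
      have hv1 := Finset.mem_erase.1 hv
      exact hv1.1 (Fin.ext ((hone v hv1.2 hwv).trans (hone y hy hwy).symm))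
    · push Not at hex
      exact dead k _ _ _ hwU (fun v hv => hex v (Finset.mem_of_mem_erase hv)) (h0 z hz)

theorem chk_spec (k : ℕ) : ∀ (F U : ℕ) (t t' : List ℕ), chk k F U t = some t' →
    ¬ SW NH k (toF F) (toF U) := by
  induction k with
  | zero =>
    intro F U t t' h
    unfold chk at h
    split_ifs at h with h1
    have hne := any_ne U h1
    rw [SW_iff]
    rintro (h0 | ⟨⟨z, hz⟩, h0⟩)
    · exact hne h0
    · exact hne (h0 z hz)
  | succ k ih =>
    intro F U t t' h
    unfold chk at h
    split_ifs at h with h1 h2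
    · exact thr_spec _ _ _ h1
    · have hne := any_ne U h2
      cases t with
      | nil => simp at h
      | cons x t =>
        simp only at h
        split_ifs at h with h3
        obtain ⟨hx, hxF⟩ := h3
        have hall := goAll_spec _ _ _ _ h
        rw [SW_iff]
        rintro (h0 | ⟨_, h0⟩)
        · exact hne h0
        · have hxm : (⟨x, hx⟩ : Fin 14) ∈ toF F := (mem_toF _ _).2 hxF
          have h4 := h0 _ hxm
          rw [DW_succ] at h4
          rcases h4 with h4 | ⟨y, hy, h4⟩
          · exact hne h4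
          · obtain ⟨a, b, hab⟩ := hall y.1 (mem_vs y)
            have hy' : (clr F (2 ^ x)).testBit y.1 = true := by
              have := toF_erase F ⟨x, hx⟩
              rw [← this] at hy
              exact (mem_toF _ _).1 hy
            rw [if_pos hy'] at hab
            refine ih _ _ _ _ hab ?_
            have e1 := toF_erase F ⟨x, hx⟩
            have e2 := toF_erase (clr F (2 ^ x)) y
            simp only at e1
            rw [e2, e1, toF_sdiff]
            exact h4

theorem toF_full : toF 16383 = Finset.univ := by decide +kernel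

theorem toF_port : toF 15871 = Finset.univ.erase 9 := by decide +kernel

/-- C2 -/
theorem c2 : C2 := by
  have h : (chk 6 16383 15871 [1, 11, 12, 4, 12, 4, 8, 13, 13, 5, 4, 4, 4, 3, 6, 13, 0, 4, 4, 4, 4, 2,
      0, 2, 0, 2, 0, 2, 0, 11, 12, 4, 2, 0, 2, 0, 11, 12, 4, 5, 8, 8, 8, 13, 8, 8, 0, 2, 8, 8, 8, 4,
      3, 2, 0, 2, 0, 2, 0]).isSome = true := by decide +kernel
  obtain ⟨t, ht⟩ := Option.isSome_iff_exists.1 h
  have h2 := chk_spec _ _ _ _ _ ht
  rwa [toF_full, toF_port] at h2

/-- C3 -/
theorem c3 : C3 := by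
  have h : (chk 7 16383 16383 [3, 2, 0]).isSome = true := by decide +kernel
  obtain ⟨t, ht⟩ := Option.isSome_iff_exists.1 h
  have h2 := chk_spec _ _ _ _ _ ht
  rwa [toF_full] at h2

end Pool.Agent.Helper8.MB
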